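import Pool.Agent.helper51.VR.Spec

/-!
# Project vr (MP_24e2e7_nt), row vr:SUB
-/

set_option autoImplicit false

namespace Pool.Agent.VR

open Pool.Agent.RB NumberField IsDedekindDomain Module
open scoped nonZeroDivisors Real Classical IsMulCommutative

theorem SUB (hREL : REL_stmt) (hREM : REM_stmt) : SUB_stmt := by
  intro F H _ _ _ _ _ _ _ r s D E hS hT hsub Θ hΘ hRub
  induction s with
  | zero =>
    have hr : r = 0 := by
      rcases Nat.eq_zero_or_pos r with h | h
      · exact h
      · obtain ⟨k, -⟩ := hsub ⟨⟨0, h⟩, rfl⟩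
        exact k.elim0
    subst hr
    refine hREL F H 0 E D hS.symm hT.symm ?_ Θ hRub
    rw [Set.range_eq_empty, Set.range_eq_empty]
  | succ s ih =>
    by_cases h : Set.range E.v ⊆ Set.range D.v
    · have heq : Set.range D.v = Set.range E.v := Set.Subset.antisymm hsub h
      have e : Fin r ≃ Fin (s + 1) :=
        (Equiv.ofInjective D.v D.hv).trans
          ((Equiv.setCongr heq).trans (Equiv.ofInjective E.v E.hv).symm)
      have hrs : r = s + 1 := Fin.equiv_iff_eq.1 ⟨e⟩
      subst hrs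
      exact hREL F H (s + 1) E D hS.symm hT.symm heq Θ hRub
    · obtain ⟨x, ⟨i₀, rfl⟩, hx⟩ := Set.not_subset.1 h
      have hΘ1 : sg (sub (sub E (Equiv.swap 0 i₀) (Equiv.swap 0 i₀).injective) Fin.succ
          (Fin.succ_injective s)).c * Θ = -Θ := by
        rw [RData_c_eq (sub (sub E (Equiv.swap 0 i₀) (Equiv.swap 0 i₀).injective) Fin.succ
          (Fin.succ_injective s)) D]
        exact hΘ
      have h1 : Rub (sub E (Equiv.swap 0 i₀) (Equiv.swap 0 i₀).injective) Θ := by
        refine hREL F H (s + 1) E (sub E (Equiv.swap 0 i₀) (Equiv.swap 0 i₀).injective) rfl rfl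
          ?_ Θ hRub
        show Set.range (E.v ∘ (Equiv.swap 0 i₀)) = Set.range E.v
        exact (Equiv.swap 0 i₀).surjective.range_comp E.v
      have h2 : Rub (sub (sub E (Equiv.swap 0 i₀) (Equiv.swap 0 i₀).injective) Fin.succ
          (Fin.succ_injective s)) Θ :=
        hREM F H s _ (sub E (Equiv.swap 0 i₀) (Equiv.swap 0 i₀).injective) rfl rfl
          (fun i => ⟨rfl, rfl⟩) Θ hΘ1 h1
      refine ih (sub (sub E (Equiv.swap 0 i₀) (Equiv.swap 0 i₀).injective) Fin.succ
          (Fin.succ_injective s)) hS hT ?_ h2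
      rintro y ⟨j, rfl⟩
      obtain ⟨k, hk⟩ := hsub ⟨j, rfl⟩
      have hki : k ≠ i₀ := by
        rintro rfl
        exact hx ⟨j, hk.symm⟩
      have hk0 : Equiv.swap 0 i₀ k ≠ 0 := by
        intro h0
        have h3 : Equiv.swap 0 i₀ (Equiv.swap 0 i₀ k) = Equiv.swap 0 i₀ 0 :=
          congrArg (Equiv.swap 0 i₀) h0
        rw [Equiv.swap_apply_self, Equiv.swap_apply_left] at h3
        exact hki h3
      obtain ⟨m, hm⟩ := Fin.exists_succ_eq.2 hk0
      refine ⟨m, ?_⟩
      show E.v (Equiv.swap 0 i₀ (Fin.succ m)) = D.v j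
      rw [hm, Equiv.swap_apply_self, hk]

end Pool.Agent.VR
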